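import Mathlib
import Pool.Agent.H61.MaC
import Pool.Agent.H61.MaDefs

set_option autoImplicit false

namespace Pool.Agent.Results.MP_3feef6_an.Quasinormal

open Pool.Agent.H61.MaDefs Pool.Agent.H61.Ma

theorem result {H : Type} [NormedAddCommGroup H] [InnerProductSpace ℂ H] [CompleteSpace H]
    (T : H →L[ℂ] H) : (∃ V W, IsPolar T V ∧ IsPolar (aluthge T V) W) ∧
      ∀ V W, IsPolar T V → IsPolar (aluthge T V) W →
        (mean (aluthge T V) W = T ↔ Commute T (star T * T)) := by
  refine ⟨(polar_exists T).elim fun V hV => (polar_exists _).elim fun W hW => ⟨V, W, hV, hW⟩,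
    fun V W hV hW => ?_⟩
  obtain ⟨F, f1, f2, f3, f4, f5⟩ := polar_proj hV
  obtain ⟨G, g1, g2, g3, g4, g5⟩ := polar_proj hW
  have P0 := CFC.abs_nonneg T
  obtain ⟨u, hu⟩ : ∃ u, u = CFC.sqrt (CFC.abs T) := ⟨_, rfl⟩
  have u0 : 0 ≤ u := hu ▸ CFC.sqrt_nonneg _
  have uu : u * u = CFC.abs T := hu ▸ CFC.sqrt_mul_sqrt_self _ P0
  have ku : ∀ x, u x = 0 ↔ T x = 0 := fun x => by rw [hu, ker_sqrt P0, ker_abs]
  have hS : aluthge T V = u * V * u := by rw [hu]; rfl
  have hT : T = V * u * u := by rw [mul_assoc, uu]; exact hV.2.2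
  have uF : u * F = 0 := f5 u fun x hx => (ku x).2 hx
  have Fu := star_zero_of u0 f2 uF
  have VF : V * F = 0 := f5 V fun x hx => (hV.2.1 x).2 hx
  have ui := inj_add f1 Fu fun x hx => (f4 x).1 ((ku x).1 hx)
  have F0 : 0 ≤ F := by simpa [f1, f2] using star_mul_self_nonneg F
  have us : IsSelfAdjoint (u + F) := .of_nonneg (add_nonneg u0 F0)
  have can : ∀ X : H →L[ℂ] H, X * F = 0 → X * u * u = 0 → X = 0 := fun X a b =>
    canR us ui (canR us ui (by simp [mul_add, a, b, mul_assoc X u F, uF]))
  constructor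
  · intro h
    obtain ⟨R, hR⟩ : ∃ R, R = CFC.abs (aluthge T V) := ⟨_, rfl⟩
    have R0 : 0 ≤ R := hR ▸ CFC.abs_nonneg _
    have h1 : u * V * u = W * R := by rw [← hS, hR]; exact hW.2.2
    have h2 : V * u * u + V * u * u = W * R + R * W := by
      rw [← hT, ← h1, ← hS, hR]
      nth_rw 1 2 [← h]
      rw [mean, ← add_smul]
      norm_num
    have k : ∀ x, aluthge T V x = 0 ↔ T x = 0 := fun x => by
      refine ⟨fun a => ?_, fun a => by simp [hS, (ku x).2 a]⟩
      rw [← h]
      simp [mean, a, (hW.2.1 x).2 a]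
    have RF : R * F = 0 := f5 R fun x hx => hR ▸ (ker_abs _ x).2 ((k x).2 hx)
    have FR := star_zero_of R0 f2 RF
    have WF : W * F = 0 := f5 W fun x hx => (hW.2.1 x).2 ((k x).2 hx)
    have GF : G = F := by
      have a : (1 - F) * G = 0 := g5 _ fun x hx => by
        rw [sub_apply, (f4 x).1 ((k x).1 hx), one_apply_eq_self, sub_self]
      have b : (1 - G) * F = 0 := f5 _ fun x hx => by
        rw [sub_apply, (g4 x).1 ((k x).2 hx), one_apply_eq_self, sub_self]
      have c := congrArg star b
      simp only [star_mul, star_sub, star_one, f2, g2, star_zero, mul_sub, mul_one] at c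
      rw [sub_mul, one_mul, sub_eq_zero] at a
      rw [a, ← sub_eq_zero.1 c]
    have FWR : F * (W * R) = 0 := by rw [← h1, ← mul_assoc, ← mul_assoc, Fu]; simp
    have FV : F * V = 0 := by
      refine can _ (by rw [mul_assoc, VF, mul_zero]) ?_
      have : F * (V * u * u + V * u * u) = 0 := by
        rw [h2, mul_add, FWR, ← mul_assoc, FR]; simp
      rw [← two_smul ℂ, mul_smul_comm, smul_eq_zero] at this
      simpa only [mul_assoc] using this.resolve_left two_ne_zero
    have FW : F * W = 0 := by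
      refine canR (u := R + F) (.of_nonneg (add_nonneg R0 F0)) (inj_add f1 FR fun x hx =>
        (f4 x).1 ((k x).1 ((ker_abs _ x).1 (hR ▸ hx)))) ?_
      rw [mul_add, mul_assoc, mul_assoc, FWR, WF]; simp
    have iso : ∀ X : H →L[ℂ] H, star X * X = 1 - F → F * X = 0 → star (X + F) * (X + F) = 1 :=
      fun X a b => by
        have c : star X * F = 0 := by simpa [f2] using congrArg star b
        simp [add_mul, mul_add, f1, f2, a, b, c]
    have c := core (u := u + F) (V := V + F) (W := W + F) (R := R + F) (add_nonneg u0 F0) ui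
      (iso V f3 FV) (iso W (GF ▸ g3) FW) (add_nonneg R0 F0)
      (by simp [add_mul, mul_add, f1, uF, Fu, FV, FR, WF, h1, mul_assoc u V F, VF])
      (by
        simp only [add_mul, mul_add, f1, uF, Fu, VF, FW, FR, WF, RF, mul_assoc V u F, mul_zero,
          add_zero, zero_add]
        rw [add_add_add_comm, h2]; abel)
    have d : Commute u V := show u * V = V * u by simpa [add_mul, mul_add, uF, Fu, FV, VF] using c
    rw [← CFC.abs_mul_abs, ← uu, hT]
    have e : Commute (V * u * u) u := (d.symm.mul_left (.refl u)).mul_left (.refl u)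
    exact (e.mul_right e).mul_right (e.mul_right e)
  · intro h
    have a : Commute u T := hu ▸ (h.symm.cfcₙ_nnreal _).cfcₙ_nnreal _
    have d : u * V = V * u := by
      rw [← sub_eq_zero]
      refine can _ (by simp [sub_mul, mul_assoc, VF, uF]) ?_
      have := a.eq
      rw [hT] at this
      simp only [sub_mul, mul_assoc] at this ⊢
      rw [this, sub_self]
    have s : aluthge T V = T := by rw [hS, d, ← hT]
    rw [s] at hW ⊢
    have e : W = V := by
      rw [← sub_eq_zero]
      refine can _ (by rw [sub_mul, VF, f5 W fun x hx => (hW.2.1 x).2 hx, sub_zero]) ?_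
      rw [mul_assoc, uu, sub_mul, ← hW.2.2, ← hV.2.2, sub_self]
    rw [mean, e, ← uu, mul_assoc, d, ← mul_assoc, d, ← hT, ← two_smul ℂ, smul_smul]
    norm_num

end Pool.Agent.Results.MP_3feef6_an.Quasinormal
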